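import Pool.Agent.W187.WP.Stmts2

/-!
WP project (owner helper187): the explicit formula for an autocorrelation.
-/

open Complex MeasureTheory Set
open Pool.Agent.W187.WP
open scoped Convolution

namespace Pool.Agent.W586.WP

theorem hcs {f : ℝ → ℝ} {a : ℝ} (hf0 : ∀ x, a ≤ |x| → f x = 0) : HasCompactSupport f := by
  refine HasCompactSupport.intro (isCompact_Icc (a := -a) (b := a)) fun x hx => hf0 x ?_
  by_contra h
  push Not at h
  exact hx (abs_le.1 h.le)

theorem GG_neg (f : ℝ → ℝ) (s : ℝ) : GG f (-s) = GG f s := by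
  unfold GG
  rw [← integral_add_right_eq_self (μ := volume) (fun x => f (x + -s) * f x) s]
  congr 1
  ext x
  simp only [add_neg_cancel_right]
  ring

theorem GG_conv (f : ℝ → ℝ) :
    GG f = (fun t => f (-t)) ⋆[ContinuousLinearMap.mul ℝ ℝ, volume] f := by
  ext s
  rw [convolution_def]
  unfold GG
  rw [← integral_neg_eq_self (fun x => (ContinuousLinearMap.mul ℝ ℝ) (f (-x)) (f (s - x)))]
  congr 1
  ext x
  simp only [ContinuousLinearMap.mul_apply', neg_neg, sub_neg_eq_add]
  rw [add_comm s x]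
  ring

theorem GG_contDiff {f : ℝ → ℝ} {a : ℝ} (hf : ContDiff ℝ 2 f) (hf0 : ∀ x, a ≤ |x| → f x = 0) :
    ContDiff ℝ 2 (GG f) := by
  rw [GG_conv]
  refine HasCompactSupport.contDiff_convolution_right _ (hcs hf0) ?_ hf
  exact (hf.continuous.comp continuous_neg).locallyIntegrable

theorem GG_zero {f : ℝ → ℝ} {a : ℝ} (hf0 : ∀ x, a ≤ |x| → f x = 0) (v : ℝ) (hv : 2 * a ≤ v) :
    GG f v = 0 := by
  unfold GG
  have : (fun x : ℝ => f (x + v) * f x) = fun _ => 0 := by
    ext x
    by_cases h : a ≤ |x|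
    · rw [hf0 x h, mul_zero]
    · push Not at h
      rw [hf0 (x + v), zero_mul]
      have h1 := (abs_lt.1 h).1
      have h2 : a ≤ x + v := by linarith
      exact h2.trans (le_abs_self _)
  rw [this, integral_zero]

theorem GG_exp {f : ℝ → ℝ} {a : ℝ} (hf : ContDiff ℝ 2 f) (hf0 : ∀ x, a ≤ |x| → f x = 0) :
    ∫ v : ℝ, GG f v * Real.exp (v / 2) =
      (∫ x : ℝ, f x * Real.exp (x / 2)) * (∫ x : ℝ, f x * Real.exp (-(x / 2))) := by
  have hc := hcs hf0
  have h1 : (fun v => GG f v * Real.exp (v / 2)) =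
      (fun t => f (-t) * Real.exp (t / 2)) ⋆[ContinuousLinearMap.mul ℝ ℝ, volume]
        (fun t => f t * Real.exp (t / 2)) := by
    ext v
    rw [GG_conv, convolution_def, convolution_def, ← integral_mul_const]
    congr 1
    ext t
    simp only [ContinuousLinearMap.mul_apply']
    have : Real.exp (v / 2) = Real.exp (t / 2) * Real.exp ((v - t) / 2) := by
      rw [← Real.exp_add]
      congr 1
      ring
    rw [this]
    ring
  have hi2 : Integrable (fun t => f t * Real.exp (t / 2)) := by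
    refine Continuous.integrable_of_hasCompactSupport ?_ (hc.mul_right)
    exact hf.continuous.mul (Real.continuous_exp.comp (continuous_id.div_const 2))
  have hi3 : Integrable (fun t => f t * Real.exp (-(t / 2))) := by
    refine Continuous.integrable_of_hasCompactSupport ?_ (hc.mul_right)
    exact hf.continuous.mul (Real.continuous_exp.comp (continuous_id.div_const 2).neg)
  have hi1 : Integrable (fun t => f (-t) * Real.exp (t / 2)) := by
    have := hi3.comp_neg
    simpa [neg_div] using this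
  rw [h1, integral_convolution (L := ContinuousLinearMap.mul ℝ ℝ) hi1 hi2]
  simp only [ContinuousLinearMap.mul_apply']
  rw [mul_comm]
  congr 1
  rw [← integral_neg_eq_self (fun x => f x * Real.exp (-(x / 2)))]
  congr 1
  ext x
  congr 2
  ring

theorem half {f : ℝ → ℝ} {a : ℝ} (hf : ContDiff ℝ 2 f) (hf0 : ∀ x, a ≤ |x| → f x = 0) :
    (∫ v in Ioi (0 : ℝ), GG f v * Real.exp (v / 2)) +
      (∫ v in Ioi (0 : ℝ), GG f v * Real.exp (-(v / 2))) =
      (∫ x : ℝ, f x * Real.exp (x / 2)) * (∫ x : ℝ, f x * Real.exp (-(x / 2))) := by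
  rw [← GG_exp hf hf0]
  have hg := GG_contDiff hf hf0
  have hgs : HasCompactSupport (GG f) := by
    refine hcs (a := 2 * a) fun x hx => ?_
    rcases le_total 0 x with h | h
    · rw [abs_of_nonneg h] at hx
      exact GG_zero hf0 x hx
    · rw [abs_of_nonpos h] at hx
      rw [← GG_neg]
      exact GG_zero hf0 _ hx
  have hi : Integrable (fun v => GG f v * Real.exp (v / 2)) := by
    refine Continuous.integrable_of_hasCompactSupport ?_ (hgs.mul_right)
    exact hg.continuous.mul (Real.continuous_exp.comp (continuous_id.div_const 2))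
  have h1 : (∫ v in Ioi (0 : ℝ), GG f v * Real.exp (-(v / 2))) =
      ∫ v in Iic (0 : ℝ), GG f v * Real.exp (v / 2) := by
    have := integral_comp_neg_Ioi (0 : ℝ) (fun v => GG f v * Real.exp (v / 2))
    rw [neg_zero] at this
    rw [← this]
    congr 1
    ext v
    rw [GG_neg, neg_div]
  rw [h1, add_comm]
  exact intervalIntegral.integral_Iic_add_Ioi hi.integrableOn hi.integrableOn

theorem whole {f : ℝ → ℝ} {a : ℝ} (ha : 0 < a) (hf0 : ∀ x, a ≤ |x| → f x = 0) (k : ℝ → ℝ) :
    ∫ x : ℝ, f x * k x = a * ∫ x in (-1 : ℝ)..1, f (a * x) * k (a * x) := by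
  rw [intervalIntegral.integral_comp_mul_left (fun x => f x * k x) ha.ne']
  rw [smul_eq_mul, ← mul_assoc, mul_inv_cancel₀ ha.ne', one_mul, mul_one, mul_neg, mul_one]
  symm
  apply intervalIntegral.integral_eq_integral_of_support_subset
  intro x hx
  rw [Function.mem_support] at hx
  have hx1 : ¬ a ≤ |x| := fun h => hx (by rw [hf0 x h, zero_mul])
  push Not at hx1
  have := abs_lt.1 hx1
  exact ⟨this.1, this.2.le⟩

theorem CS {f : ℝ → ℝ} {a : ℝ} (ha : 0 < a) (hf : ContDiff ℝ 2 f)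
    (hf0 : ∀ x, a ≤ |x| → f x = 0) :
    (∫ x : ℝ, f x * Real.exp (x / 2)) * (∫ x : ℝ, f x * Real.exp (-(x / 2))) =
      a ^ 2 * ((∫ x in (-1 : ℝ)..1, f (a * x) * Real.cosh (a * x / 2)) ^ 2 -
        (∫ x in (-1 : ℝ)..1, f (a * x) * Real.sinh (a * x / 2)) ^ 2) := by
  have hc := hcs hf0
  have hi1 : Integrable (fun t => f t * Real.cosh (t / 2)) := by
    refine Continuous.integrable_of_hasCompactSupport ?_ (hc.mul_right)
    exact hf.continuous.mul (Real.continuous_cosh.comp (continuous_id.div_const 2))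
  have hi2 : Integrable (fun t => f t * Real.sinh (t / 2)) := by
    refine Continuous.integrable_of_hasCompactSupport ?_ (hc.mul_right)
    exact hf.continuous.mul (Real.continuous_sinh.comp (continuous_id.div_const 2))
  have h1 : (∫ x : ℝ, f x * Real.exp (x / 2)) =
      (∫ x : ℝ, f x * Real.cosh (x / 2)) + ∫ x : ℝ, f x * Real.sinh (x / 2) := by
    rw [← integral_add hi1 hi2]
    congr 1
    ext x
    rw [← mul_add, Real.cosh_add_sinh]
  have h2 : (∫ x : ℝ, f x * Real.exp (-(x / 2))) =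
      (∫ x : ℝ, f x * Real.cosh (x / 2)) - ∫ x : ℝ, f x * Real.sinh (x / 2) := by
    rw [← integral_sub hi1 hi2]
    congr 1
    ext x
    rw [← mul_sub, Real.cosh_sub_sinh]
  rw [h1, h2, whole ha hf0 (fun x => Real.cosh (x / 2)), whole ha hf0 (fun x => Real.sinh (x / 2))]
  ring

theorem GG_scale {f : ℝ → ℝ} {a : ℝ} (ha : 0 < a) (s : ℝ) :
    GG (fun x => f (a * x)) s = a⁻¹ * GG f (a * s) := by
  unfold GG
  have h := Measure.integral_comp_mul_left (fun y => f (y + a * s) * f y) a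
  rw [abs_of_pos (inv_pos.2 ha), smul_eq_mul] at h
  rw [← h]
  congr 1
  ext x
  simp only [mul_add]

theorem aQQ {f : ℝ → ℝ} {a : ℝ} (ha : 0 < a) :
    a * QQ a (fun x => f (a * x)) =
      -(Real.eulerMascheroniConstant + Real.log (4 * Real.pi * a)) * GG f 0
      + (∫ v in (0 : ℝ)..(2 * a), (GG f 0 / v - Real.exp (v / 2) / Real.sinh v * GG f v))
      - 2 * (Real.log 2 / Real.sqrt 2) * GG f (Real.log 2)
      + 2 * (a ^ 2 * ((∫ x in (-1 : ℝ)..1, f (a * x) * Real.cosh (a * x / 2)) ^ 2 -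
        (∫ x in (-1 : ℝ)..1, f (a * x) * Real.sinh (a * x / 2)) ^ 2)) := by
  have h1 : (∫ s in (0 : ℝ)..2, (GG (fun x => f (a * x)) 0 / s -
      a * Real.exp (a * s / 2) / Real.sinh (a * s) * GG (fun x => f (a * x)) s)) =
      a⁻¹ * ∫ v in (0 : ℝ)..(2 * a), (GG f 0 / v - Real.exp (v / 2) / Real.sinh v * GG f v) := by
    have h := intervalIntegral.integral_comp_mul_left (a := 0) (b := 2)
      (fun v => GG f 0 / v - Real.exp (v / 2) / Real.sinh v * GG f v) ha.ne'
    rw [mul_zero, smul_eq_mul, mul_comm a 2] at h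
    rw [← h]
    congr 1
    ext s
    rw [GG_scale ha, GG_scale ha, mul_zero]
    simp only [div_eq_mul_inv, mul_inv]
    have : a * a⁻¹ = 1 := mul_inv_cancel₀ ha.ne'
    linear_combination (-(Real.exp (a * s * 2⁻¹) * (Real.sinh (a * s))⁻¹ * GG f (a * s))) * this
  unfold QQ
  rw [h1, GG_scale ha, GG_scale ha, mul_zero, mul_div_cancel₀ _ ha.ne']
  have : a * a⁻¹ = 1 := mul_inv_cancel₀ ha.ne'
  linear_combination (-(Real.eulerMascheroniConstant + Real.log (4 * Real.pi * a)) * GG f 0 +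
    (∫ v in (0 : ℝ)..(2 * a), (GG f 0 / v - Real.exp (v / 2) / Real.sinh v * GG f v)) -
    2 * (Real.log 2 / Real.sqrt 2) * GG f (Real.log 2)) * this

theorem link : S_AR → S_LINK := by
  intro hAR f a ha hf hf0 h3
  have hg := GG_contDiff hf hf0
  have hev := GG_neg f
  have e1 : (∫ v in Ioi (0 : ℝ), (((GG f v : ℝ) : ℂ) + ((GG f (-v) : ℝ) : ℂ)) *
      ((Real.exp (v / 2) : ℝ) : ℂ)) =
      ((2 * ∫ v in Ioi (0 : ℝ), GG f v * Real.exp (v / 2) : ℝ) : ℂ) := by
    rw [← integral_const_mul, ← integral_complex_ofReal]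
    congr 1
    ext v
    rw [hev]
    push_cast
    ring
  have e2 : (∑' n : ℕ, ((ArithmeticFunction.vonMangoldt n / Real.sqrt n : ℝ) : ℂ) *
      (((GG f (Real.log n) : ℝ) : ℂ) + ((GG f (-Real.log n) : ℝ) : ℂ))) =
      ((2 * (Real.log 2 / Real.sqrt 2) * GG f (Real.log 2) : ℝ) : ℂ) := by
    rw [tsum_eq_single 2]
    · rw [hev, ArithmeticFunction.vonMangoldt_apply_prime Nat.prime_two]
      push_cast
      ring
    · intro n hn
      rcases Nat.lt_or_ge n 3 with h | h
      · interval_cases n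
        · simp
        · simp
        · exact absurd rfl hn
      · have : Real.log 3 ≤ Real.log n := Real.log_le_log (by norm_num) (by exact_mod_cast h)
        rw [hev, h3 _ this]
        simp
  have e3 : (∑' n : ℕ, (((GG f 0 : ℝ) : ℂ) / ((n : ℂ) + 1) - ∫ v in Ioi (0 : ℝ),
      (((GG f v : ℝ) : ℂ) + ((GG f (-v) : ℝ) : ℂ)) *
      ((Real.exp (-(2 * ((n : ℝ) + 1) + 1 / 2) * v) : ℝ) : ℂ))) =
      ((∑' n : ℕ, (GG f 0 / ((n : ℝ) + 1) - 2 * ∫ v in Ioi (0 : ℝ), GG f v *
      Real.exp (-(2 * ((n : ℝ) + 1) + 1 / 2) * v)) : ℝ) : ℂ) := by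
    rw [Complex.ofReal_tsum]
    congr 1
    ext n
    have : (∫ v in Ioi (0 : ℝ),
      (((GG f v : ℝ) : ℂ) + ((GG f (-v) : ℝ) : ℂ)) *
      ((Real.exp (-(2 * ((n : ℝ) + 1) + 1 / 2) * v) : ℝ) : ℂ)) =
      ((2 * ∫ v in Ioi (0 : ℝ), GG f v *
        Real.exp (-(2 * ((n : ℝ) + 1) + 1 / 2) * v) : ℝ) : ℂ) := by
      rw [← integral_const_mul, ← integral_complex_ofReal]
      congr 1
      ext v
      rw [hev]
      push_cast
      ring
    rw [this]
    push_cast
    ring
  have e4 := hAR (GG f) (2 * a) (by linarith) (hg.of_le (by norm_num)) (fun v hv => GG_zero hf0 v hv)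
  unfold WW
  rw [e1, e2, e3, aQQ ha]
  have e5 := half hf hf0
  rw [CS ha hf hf0] at e5
  have e6 : Real.log (4 * Real.pi * a) = Real.log Real.pi + Real.log (2 * (2 * a)) := by
    rw [← Real.log_mul Real.pi_ne_zero (by positivity)]
    congr 1
    ring
  rw [← Complex.ofReal_mul, ← Complex.ofReal_sub, ← Complex.ofReal_sub, ← Complex.ofReal_add,
    Complex.ofReal_inj, e6]
  linear_combination e4 + 2 * e5

end Pool.Agent.W586.WP
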